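import Pool.Agent.Q47.FL.Weights

/-!
# Products of nested minors
-/

set_option autoImplicit false

namespace Q47.FL

open MvPolynomial

variable {q : ℕ}

/-- The minor of the rows `w i`, `i < k`, and of the first `k` columns. -/
noncomputable def mnv (g : Matrix (Fin q) (Fin q) ℂ) (w : Fin q → Fin q) (k : ℕ) : ℂ :=
  (Matrix.of fun i j : {i : Fin q // (i : ℕ) < k} => g (w i) j).det

/-- The minor as a polynomial. -/
noncomputable def mn (w : Fin q → Fin q) (k : ℕ) : MvPolynomial (Fin q × Fin q) ℂ :=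
  (Matrix.of fun i j : {i : Fin q // (i : ℕ) < k} => X (w i, (j : Fin q))).det

theorem ev_mn (g : Matrix (Fin q) (Fin q) ℂ) (w : Fin q → Fin q) (k : ℕ) :
    ev g (mn w k) = mnv g w k := by
  rw [ev, mn, RingHom.map_det, mnv]
  congr 1
  ext i j
  simp

theorem prod_ite (k : ℕ) (j : Fin q) (t : ℂ) :
    (∏ l : {i : Fin q // (i : ℕ) < k}, if (l : Fin q) = j then t else 1)
      = if (j : ℕ) < k then t else 1 := by
  by_cases h : (j : ℕ) < k
  · rw [if_pos h, Finset.prod_eq_single ⟨j, h⟩]
    · rw [if_pos rfl]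
    · intro l _ hl
      exact if_neg fun e => hl (Subtype.ext e)
    · intro h
      exact absurd (Finset.mem_univ _) h
  · rw [if_neg h]
    refine Finset.prod_eq_one fun l _ => if_neg fun e => h (by rw [← e]; exact l.2)

theorem mnv_scale (g : Matrix (Fin q) (Fin q) ℂ) (w : Fin q → Fin q) (k : ℕ) (j : Fin q) (t : ℂ) :
    mnv (g.updateCol j fun i => t * g i j) w k = (if (j : ℕ) < k then t else 1) * mnv g w k := by
  rw [mnv, mnv, ← prod_ite, ← Matrix.det_mul_row]
  congr 1
  ext i l
  simp only [Matrix.of_apply, Matrix.updateCol_apply]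
  by_cases h : (l : Fin q) = j
  · rw [if_pos h, if_pos h, h]
  · rw [if_neg h, if_neg h, one_mul]

theorem mnv_shear (g : Matrix (Fin q) (Fin q) ℂ) (w : Fin q → Fin q) (k : ℕ) {j l : Fin q}
    (t : ℂ) (hjl : j ≠ l) (h : (l : ℕ) < k → (j : ℕ) < k) :
    mnv (g.updateCol l fun i => g i l + t * g i j) w k = mnv g w k := by
  by_cases hl : (l : ℕ) < k
  · have h1 := Matrix.det_updateCol_add_smul_self
      (Matrix.of fun i j : {i : Fin q // (i : ℕ) < k} => g (w i) j)
      (i := ⟨l, hl⟩) (j := ⟨j, h hl⟩) (fun e => hjl (congrArg Subtype.val e).symm) t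
    rw [mnv, mnv, ← h1]
    congr 1
    ext i s
    simp only [Matrix.of_apply, Matrix.updateCol_apply, smul_eq_mul]
    by_cases hs : (s : Fin q) = l
    · rw [if_pos hs, if_pos (Subtype.ext hs)]
    · rw [if_neg hs, if_neg fun e => hs (congrArg Subtype.val e)]
  · rw [mnv, mnv]
    congr 1
    ext i s
    have hs : (s : Fin q) ≠ l := fun e => hl (by rw [← e]; exact s.2)
    simp only [Matrix.of_apply, Matrix.updateCol_apply]
    rw [if_neg hs]

theorem mnv_left (g : Matrix (Fin q) (Fin q) ℂ) (w : Fin q → Fin q) (k : ℕ) (c : Fin q → ℂ) :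
    mnv (Matrix.of fun i j => c i * g i j) w k
      = (∏ i : {i : Fin q // (i : ℕ) < k}, c (w i)) * mnv g w k := by
  rw [mnv, mnv, ← Matrix.det_mul_column]
  rfl

/-! ### The telescoping exponents -/

/-- The extension of a weight by zero. -/
def ex (l : Fin q → ℕ) (k : ℕ) : ℕ := if h : k < q then l ⟨k, h⟩ else 0

theorem ex_fin (l : Fin q → ℕ) (j : Fin q) : ex l j = l j := by
  rw [ex, dif_pos j.2]

theorem ex_anti {l : Fin q → ℕ} (hl : Antitone l) (k : ℕ) : ex l (k + 1) ≤ ex l k := by
  rw [ex, ex]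
  by_cases h : k + 1 < q
  · rw [dif_pos h, dif_pos (by omega)]
    exact hl (by simp [Fin.le_def])
  · rw [dif_neg h]
    exact Nat.zero_le _

theorem tele {l : Fin q → ℕ} (hl : Antitone l) (j : Fin q) :
    (∑ k ∈ Finset.range q, if (j : ℕ) < k + 1 then ex l k - ex l (k + 1) else 0) = l j := by
  have key : ∀ n : ℕ, (j : ℕ) ≤ n → (∑ k ∈ Finset.range n,
      if (j : ℕ) < k + 1 then ex l k - ex l (k + 1) else 0) + ex l n = ex l j := by
    intro n hn
    induction n, hn using Nat.le_induction with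
    | base =>
      rw [Finset.sum_eq_zero, zero_add]
      intro k hk
      have := Finset.mem_range.1 hk
      exact if_neg (by omega)
    | succ n hn ih =>
      rw [Finset.sum_range_succ, if_pos (by omega), add_assoc,
        Nat.sub_add_cancel (ex_anti hl n)]
      exact ih
  have h1 := key q j.2.le
  have h2 : ex l q = 0 := by rw [ex, dif_neg (lt_irrefl q)]
  rw [h2, add_zero, ex_fin] at h1
  exact h1

/-- The product of minors. -/
noncomputable def pr (w : Fin q → Fin q) (l : Fin q → ℕ) : MvPolynomial (Fin q × Fin q) ℂ :=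
  ∏ k ∈ Finset.range q, mn w (k + 1) ^ (ex l k - ex l (k + 1))

theorem ev_pr (g : Matrix (Fin q) (Fin q) ℂ) (w : Fin q → Fin q) (l : Fin q → ℕ) :
    ev g (pr w l) = ∏ k ∈ Finset.range q, mnv g w (k + 1) ^ (ex l k - ex l (k + 1)) := by
  rw [pr, ev, map_prod]
  refine Finset.prod_congr rfl fun k _ => ?_
  rw [map_pow]
  congr 1
  exact ev_mn g w (k + 1)

theorem prod_ite_pow {l : Fin q → ℕ} (hl : Antitone l) (j : Fin q) (t : ℂ) :
    (∏ k ∈ Finset.range q, (if (j : ℕ) < k + 1 then t else 1) ^ (ex l k - ex l (k + 1)))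
      = t ^ l j := by
  rw [← tele hl j, ← Finset.prod_pow_eq_pow_sum]
  refine Finset.prod_congr rfl fun k _ => ?_
  split_ifs
  · rfl
  · rw [one_pow, pow_zero]

theorem semi_pr {b : Fin q → ℕ} (hb : Monotone b) {l : Fin q → ℕ} (hl : Antitone l) {d : ℕ → ℕ}
    (hd : ∀ j, d (b j) = l j) (w : Fin q → Fin q) : IsSemiInvariant b d (pr w l) where
  scale := fun g j t => by
    rw [ev_pr, ev_pr, hd, ← prod_ite_pow hl j t, ← Finset.prod_mul_distrib]
    refine Finset.prod_congr rfl fun k _ => ?_
    rw [mnv_scale, mul_pow]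
  shear := fun g j k t hjk hbjk => by
    rw [ev_pr, ev_pr]
    refine Finset.prod_congr rfl fun s hs => ?_
    by_cases he : ex l s - ex l (s + 1) = 0
    · rw [he, pow_zero, pow_zero]
    rw [mnv_shear g w (s + 1) t hjk]
    intro hk
    by_contra hj
    have hsq := Finset.mem_range.1 hs
    have hs1 : s + 1 < q := by
      have := j.2
      omega
    have h1 : b k ≤ b ⟨s, hsq⟩ := hb (by rw [Fin.le_def]; simpa using Nat.lt_succ_iff.1 hk)
    have h2 : b ⟨s + 1, hs1⟩ ≤ b j := hb (by rw [Fin.le_def]; simpa using hj)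
    have h3 : b ⟨s, hsq⟩ ≤ b ⟨s + 1, hs1⟩ := hb (by simp [Fin.le_def])
    have h4 : b ⟨s, hsq⟩ = b ⟨s + 1, hs1⟩ := by omega
    apply he
    rw [ex, ex, dif_pos hsq, dif_pos hs1, ← hd, ← hd, h4, Nat.sub_self]

theorem left_pr {l : Fin q → ℕ} (hl : Antitone l) (w : Equiv.Perm (Fin q)) (c : Fin q → ℂ)
    (g : Matrix (Fin q) (Fin q) ℂ) :
    ev (Matrix.of fun i j => c i * g i j) (pr w l) = (∏ j, c (w j) ^ l j) * ev g (pr w l) := by
  rw [ev_pr, ev_pr]
  have h1 : ∏ j, c (w j) ^ l j = ∏ k ∈ Finset.range q,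
      (∏ i : {i : Fin q // (i : ℕ) < k + 1}, c (w i)) ^ (ex l k - ex l (k + 1)) := by
    have h2 : ∀ j, c (w j) ^ l j = ∏ k ∈ Finset.range q,
        (if (j : ℕ) < k + 1 then c (w j) else 1) ^ (ex l k - ex l (k + 1)) :=
      fun j => (prod_ite_pow hl j _).symm
    simp only [h2]
    rw [Finset.prod_comm]
    refine Finset.prod_congr rfl fun k _ => ?_
    rw [Finset.prod_pow]
    congr 1
    rw [← Finset.prod_filter]
    exact Finset.prod_subtype _ (fun x => by simp) _
  rw [h1, ← Finset.prod_mul_distrib]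
  refine Finset.prod_congr rfl fun k _ => ?_
  rw [mnv_left, mul_pow]

/-! ### Nonvanishing minors -/

/-- Some permutation of the rows of an invertible matrix has nonzero leading minors. -/
theorem exists_perm (g : Matrix (Fin q) (Fin q) ℂ) (hg : g.det ≠ 0) :
    ∃ w : Equiv.Perm (Fin q), ∀ k ≤ q, mnv g w k ≠ 0 := by
  induction q with
  | zero =>
    refine ⟨1, fun k hk => ?_⟩
    rw [mnv, Matrix.det_isEmpty]
    exact one_ne_zero
  | succ q ih =>
    have h1 := Matrix.det_succ_column g (Fin.last q)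
    have hg' := hg
    rw [h1] at hg
    obtain ⟨r, -, hr⟩ := Finset.exists_ne_zero_of_sum_ne_zero hg
    have h2 : (g.submatrix r.succAbove (Fin.last q).succAbove).det ≠ 0 := right_ne_zero_of_mul hr
    obtain ⟨w', hw'⟩ := ih _ h2
    let w : Equiv.Perm (Fin (q + 1)) := (finSuccEquiv' (Fin.last q)).trans
      ((Equiv.optionCongr w').trans (finSuccEquiv' r).symm)
    have hw : ∀ i : Fin q, w i.castSucc = r.succAbove (w' i) := by
      intro i
      simp only [w, Equiv.trans_apply, finSuccEquiv'_last_apply_castSucc, Equiv.optionCongr_apply,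
        Option.map_some, finSuccEquiv'_symm_some]
    refine ⟨w, fun k hk => ?_⟩
    rcases Nat.lt_or_ge q k with h | h
    · have hkq : k = q + 1 := by omega
      subst hkq
      let e : {i : Fin (q + 1) // (i : ℕ) < q + 1} ≃ Fin (q + 1) :=
        Equiv.subtypeUnivEquiv fun i => i.2
      have h3 : mnv g w (q + 1) = ((g.submatrix w id).submatrix e e).det := rfl
      rw [h3, Matrix.det_submatrix_equiv_self, Matrix.det_permute]
      refine mul_ne_zero ?_ hg'
      have := Int.cast_ne_zero (α := ℂ).2 (Units.ne_zero (Equiv.Perm.sign w))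
      exact this
    · have h3 := hw' k h
      let e : {i : Fin q // (i : ℕ) < k} ≃ {i : Fin (q + 1) // (i : ℕ) < k} :=
        { toFun := fun i => ⟨i.1.castSucc, i.2⟩
          invFun := fun i => ⟨⟨i.1, lt_of_lt_of_le i.2 h⟩, i.2⟩
          left_inv := fun i => rfl
          right_inv := fun i => rfl }
      have h4 : mnv (g.submatrix r.succAbove (Fin.last q).succAbove) w' k
          = ((Matrix.of fun i j : {i : Fin (q + 1) // (i : ℕ) < k} => g (w i) j).submatrix e e).det := by
        rw [mnv]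
        congr 1
        ext i j
        simp only [Matrix.of_apply, Matrix.submatrix_apply, Fin.succAbove_last]
        change g (r.succAbove (w' i)) _ = g (w (i : Fin q).castSucc) _
        rw [hw]
        rfl
      rw [h4, Matrix.det_submatrix_equiv_self] at h3
      exact h3

end Q47.FL
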