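import Pool.Agent.Q47.FL.Hull
import Pool.Agent.Q47.FL.Minor

/-!
# Abundance for pairs on flag bundles over torus quotients
-/

set_option autoImplicit false

namespace Q47.FL

open Pool.Agent.W594.SYZ2 Pool.Agent.W594.SYZ2.TQ Pool.Agent.TH735.AQ MvPolynomial Q47.EB Q47.KN
open Q47.TB (tw chern_tw gg_tw nef_of_pair exists_common_prod prod_diff coeff_of_eval)

variable {V : Type*} [NormedAddCommGroup V] [NormedSpace ℂ V]
  {Γ : Subgroup (V ≃ᵃ[ℂ] V)} {q : ℕ}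

/-- The product of powers of functions which transform as coefficients defines a log pluricanonical
divisor on the base. -/
theorem base_pair [FiniteDimensional ℂ V] {c : Fin q → LineBundle Γ} {m : ℕ} {ρ : V → ℂ}
    {L : LineBundle Γ} {J : Type*} (T : Finset J) (f : J → V → ℂ) (e : J → Fin q → ℕ)
    (hf : ∀ α, Differentiable ℂ (f α)) (hT : ∀ α ∈ T, ∃ v, f α v ≠ 0)
    (hrel : ∀ α ∈ T, ∀ (γ : Γ) (v : V),
      f α ((γ : V ≃ᵃ[ℂ] V) v) * (∏ i, (c i).e γ v ^ e α i) * ρ v ^ m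
        = (L.e γ v * (LinearMap.det ((γ : V ≃ᵃ[ℂ] V).linear : V →ₗ[ℂ] V)) ^ m *
          ρ ((γ : V ≃ᵃ[ℂ] V) v) ^ m) * f α v)
    (b : J → ℕ) {β : Fin q → ℕ} (hb : ∀ i, ∑ α ∈ T, b α * e α i = (∑ α ∈ T, b α) * β i) :
    ∃ P : V → ℂ, Differentiable ℂ P ∧ (∃ v, P v ≠ 0) ∧
      Pool.Agent.TH735.AQ.IsLogPluricanonical (tw L c (∑ α ∈ T, b α) β)
        (m * ∑ α ∈ T, b α) ρ P := by
  classical
  set K := ∑ α ∈ T, b α with hK
  refine ⟨fun v => ∏ α ∈ T, f α v ^ b α,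
    prod_diff T (fun α v => f α v ^ b α) (fun α => (hf α).pow _),
    exists_common_prod T (fun α v => f α v ^ b α) (fun α _ => (hf α).pow _)
      (fun α hα => by
        obtain ⟨v, hv⟩ := hT α hα
        exact ⟨v, pow_ne_zero _ hv⟩), fun γ v => ?_⟩
  set D := LinearMap.det ((γ : V ≃ᵃ[ℂ] V).linear : V →ₗ[ℂ] V) with hD
  have hprod : (∏ α ∈ T, f α ((γ : V ≃ᵃ[ℂ] V) v) ^ b α) *
      (∏ α ∈ T, (∏ i, (c i).e γ v ^ e α i) ^ b α) * (ρ v ^ m) ^ K
      = (L.e γ v * D ^ m * ρ ((γ : V ≃ᵃ[ℂ] V) v) ^ m) ^ K *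
        ∏ α ∈ T, f α v ^ b α := by
    rw [hK, ← Finset.prod_pow_eq_pow_sum, ← Finset.prod_pow_eq_pow_sum, ← Finset.prod_mul_distrib,
      ← Finset.prod_mul_distrib, ← Finset.prod_mul_distrib]
    refine Finset.prod_congr rfl fun α hα => ?_
    rw [← mul_pow, ← mul_pow, hrel α hα γ v, mul_pow]
  have hpow : (∏ α ∈ T, (∏ i, (c i).e γ v ^ e α i) ^ b α)
      = ∏ i, (c i).e γ v ^ (K * β i) := by
    have h1 : ∀ α ∈ T, (∏ i, (c i).e γ v ^ e α i) ^ b α = ∏ i, (c i).e γ v ^ (b α * e α i) := by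
      intro α _
      rw [← Finset.prod_pow]
      exact Finset.prod_congr rfl fun i _ => by rw [← pow_mul, mul_comm]
    rw [Finset.prod_congr rfl h1, Finset.prod_comm]
    refine Finset.prod_congr rfl fun i _ => ?_
    rw [Finset.prod_pow_eq_pow_sum, hb i]
  rw [hpow] at hprod
  change (∏ α ∈ T, f α ((γ : V ≃ᵃ[ℂ] V) v) ^ b α) * ρ v ^ (m * K)
    = L.e γ v ^ K * (∏ i, (c i).e γ v ^ (K * β i))⁻¹ * D ^ (m * K) *
      (∏ α ∈ T, f α v ^ b α) * ρ ((γ : V ≃ᵃ[ℂ] V) v) ^ (m * K)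
  have hW0 : (∏ i, (c i).e γ v ^ (K * β i)) ≠ 0 :=
    Finset.prod_ne_zero_iff.2 fun i _ => pow_ne_zero _ ((c i).ne_zero γ v)
  set W := ∏ i, (c i).e γ v ^ (K * β i)
  set A := ∏ α ∈ T, f α ((γ : V ≃ᵃ[ℂ] V) v) ^ b α
  set B := ∏ α ∈ T, f α v ^ b α
  have e1 : (ρ v ^ m) ^ K = ρ v ^ (m * K) := (pow_mul _ _ _).symm
  have e2 : (L.e γ v * D ^ m * ρ ((γ : V ≃ᵃ[ℂ] V) v) ^ m) ^ K
      = L.e γ v ^ K * D ^ (m * K) * ρ ((γ : V ≃ᵃ[ℂ] V) v) ^ (m * K) := by
    rw [mul_pow, mul_pow, ← pow_mul, ← pow_mul]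
  rw [e1, e2] at hprod
  field_simp
  linear_combination hprod

/-- The coefficients of `F`. -/
theorem coeff_rel {c : Fin q → LineBundle Γ} {a b : ℂ} {γ : Γ} {v : V}
    {F G : MvPolynomial (Fin q × Fin q) ℂ}
    (h : ∀ g : Matrix (Fin q) (Fin q) ℂ,
      ev (Matrix.of fun i j => (c i).e γ v * g i j) F * a = b * ev g G)
    (α : Fin q × Fin q →₀ ℕ) :
    coeff α F * (∏ i, (c i).e γ v ^ row α i) * a = b * coeff α G := by
  have h1 := coeff_of_eval (t := fun x : Fin q × Fin q => (c x.1).e γ v) (p := F) (q := G)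
    (a := a) (b := b) (fun x => h (Matrix.of fun i j => x (i, j))) α
  have h2 : (∏ x : Fin q × Fin q, (c x.1).e γ v ^ α x) = ∏ i, (c i).e γ v ^ row α i := by
    rw [Fintype.prod_prod_type]
    refine Finset.prod_congr rfl fun i _ => ?_
    rw [row, ← Finset.prod_pow_eq_pow_sum]
  rw [h2] at h1
  exact h1

/-- From the line bundles on the base to the line bundle on the flag bundle. -/
theorem semiample_of_gg {b : Fin q → ℕ} (hb : Monotone b) {L : LineBundle Γ}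
    {c : Fin q → LineBundle Γ} {l : Fin q → ℕ} (hl : Antitone l)
    (hlb : ∀ j k, b j = b k → l j = l k) {E : ℕ} (hE : 1 ≤ E)
    (h : ∀ w : Equiv.Perm (Fin q), ∃ K : ℕ, 1 ≤ K ∧
      GG ((tw L c K fun i => l (w.symm i)).pow E)) :
    ∃ N : ℕ, 1 ≤ N ∧ ∃ d' : ℕ → ℕ, (∀ j, d' (b j) = N * l j) ∧
      ∀ (v : V) (g : Matrix (Fin q) (Fin q) ℂ), g.det ≠ 0 →
        ∃ G, IsSection b c d' (fun γ v => L.e γ v ^ N) G ∧ ev g (G v) ≠ 0 := by
  classical
  choose K hK hg using h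
  set N := (∏ w, K w) * E with hN
  have hN1 : 1 ≤ N := Nat.mul_pos (Finset.prod_pos fun w _ => hK w) hE
  let d' : ℕ → ℕ := fun s => if h : ∃ j, b j = s then N * l h.choose else 0
  have hd' : ∀ j, d' (b j) = N * l j := by
    intro j
    have h1 : ∃ k, b k = b j := ⟨j, rfl⟩
    simp only [d']
    rw [dif_pos h1, hlb _ _ h1.choose_spec]
  refine ⟨N, hN1, d', hd', fun v g hdet => ?_⟩
  obtain ⟨w, hw⟩ := exists_perm g hdet
  obtain ⟨R, hR⟩ : K w ∣ ∏ w, K w := Finset.dvd_prod_of_mem K (Finset.mem_univ w)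
  obtain ⟨s, hs, hs0⟩ := (hg w).mul (Dvd.intro R rfl) v
  have hKN : K w * (E * R) = N := by rw [hN, hR]; ring
  have hl' : Antitone fun j => N * l j := fun i j hij => Nat.mul_le_mul le_rfl (hl hij)
  refine ⟨fun v => C (s v) * pr w (fun j => N * l j), ⟨fun α => ?_, fun v => ?_, fun γ v g => ?_⟩, ?_⟩
  · simp only [coeff_C_mul]
    exact hs.holo.mul_const _
  · have h1 := semi_pr hb hl' hd' w
    refine ⟨fun g j t => ?_, fun g j k t hjk hbjk => ?_⟩
    · have := h1.scale g j t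
      rw [ev, ev, map_mul, map_mul, eval_C, eval_C]
      rw [ev, ev] at this
      rw [this]
      ring
    · have := h1.shear g j k t hjk hbjk
      rw [ev, ev, map_mul, map_mul, eval_C, eval_C]
      rw [ev, ev] at this
      rw [this]
  · have h1 := left_pr hl' w (fun i => (c i).e γ v) g
    rw [ev, ev] at h1
    rw [ev, ev, map_mul, map_mul, eval_C, eval_C, h1, hs.eq γ v]
    have h2 : ((tw L c (K w) fun i => l (w.symm i)).pow (E * R)).e γ v
        = L.e γ v ^ N * (∏ j, (c (w j)).e γ v ^ (N * l j))⁻¹ := by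
      change (L.e γ v ^ K w * (∏ i, (c i).e γ v ^ (K w * l (w.symm i)))⁻¹) ^ (E * R) = _
      rw [mul_pow, ← pow_mul, hKN, inv_pow, ← Finset.prod_pow]
      congr 2
      rw [← Equiv.prod_comp w fun i => ((c i).e γ v ^ (K w * l (w.symm i))) ^ (E * R)]
      refine Finset.prod_congr rfl fun j _ => ?_
      rw [Equiv.symm_apply_apply, ← pow_mul]
      congr 1
      rw [← hKN]
      ring
    have hW0 : (∏ j, (c (w j)).e γ v ^ (N * l j)) ≠ 0 :=
      Finset.prod_ne_zero_iff.2 fun i _ => pow_ne_zero _ ((c _).ne_zero γ v)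
    rw [h2]
    field_simp
  · rw [ev, map_mul, eval_C]
    refine mul_ne_zero hs0 ?_
    have h1 := ev_pr g w fun j => N * l j
    rw [ev] at h1
    rw [h1]
    refine Finset.prod_ne_zero_iff.2 fun k hk => pow_ne_zero _ (hw _ ?_)
    have := Finset.mem_range.1 hk
    omega

variable [FiniteDimensional ℂ V]

/-- The semiampleness of the line bundles on the sections, and the conclusion. -/
theorem abundance₀ (hΓ : IsTorusQuotient Γ) {ρ : V → ℂ} (hρ : IsRamification Γ ρ)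
    {b : Fin q → ℕ} (hb : Monotone b)
    {c : Fin q → LineBundle Γ} {Hc : Fin q → V → V → ℂ} (hc : ∀ i, IsChernForm (c i) (Hc i))
    {m : ℕ} {L : LineBundle Γ} {H : V → V → ℂ} (hL : IsChernForm L H)
    {T : Finset (Fin q × Fin q →₀ ℕ)} {f : (Fin q × Fin q →₀ ℕ) → V → ℂ}
    (hf : ∀ α, Differentiable ℂ (f α)) (hT : ∀ α ∈ T, ∃ v, f α v ≠ 0)
    (hrel : ∀ α ∈ T, ∀ (γ : Γ) (v : V),
      f α ((γ : V ≃ᵃ[ℂ] V) v) * (∏ i, (c i).e γ v ^ row α i) * ρ v ^ m
        = (L.e γ v * (LinearMap.det ((γ : V ≃ᵃ[ℂ] V).linear : V →ₗ[ℂ] V)) ^ m *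
          ρ ((γ : V ≃ᵃ[ℂ] V) v) ^ m) * f α v)
    {l : Fin q → ℤ} (hl : IsFibreNef b l) (hlb : ∀ j k, b j = b k → l j = l k)
    (hw : ∀ (w : Equiv.Perm (Fin q)) (a : Fin q → ℤ), (∀ j k, b j < b k → a (w j) < a (w k)) →
      ∃ α ∈ T, ∑ i, a i * row α i ≤ ∑ j, a (w j) * l j)
    (hn : (∀ w : Equiv.Perm (Fin q), IsNefForm fun v v' => H v v' - ∑ j, (l j : ℂ) * Hc (w j) v v')
      ∨ ∀ v, ρ v ≠ 0) :
    ∃ N : ℕ, 1 ≤ N ∧ ∃ d' : ℕ → ℕ, (∀ j, (d' (b j) : ℤ) = N * l j) ∧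
      ∀ (v : V) (g : Matrix (Fin q) (Fin q) ℂ), g.det ≠ 0 →
        ∃ G, IsSection b c d' (fun γ v => L.e γ v ^ N) G ∧ ev g (G v) ≠ 0 := by
  classical
  have hl0 : ∀ j, 0 ≤ l j := by
    intro j
    obtain ⟨k, hk1, hk⟩ := exists_comb hb T hl hlb hw 1
    have h1 := hk j
    have h2 : (0 : ℤ) ≤ ((∑ α ∈ T, k α : ℕ) : ℤ) * l j := by
      rw [← h1]
      exact Int.natCast_nonneg _
    have h3 : (0 : ℤ) < ((∑ α ∈ T, k α : ℕ) : ℤ) := by exact_mod_cast hk1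
    exact nonneg_of_mul_nonneg_right h2 h3
  let l' : Fin q → ℕ := fun j => (l j).toNat
  have hl' : ∀ j, (l' j : ℤ) = l j := fun j => Int.toNat_of_nonneg (hl0 j)
  have hla : Antitone l' := by
    intro j k hjk
    have h1 : l k ≤ l j := by
      rcases lt_or_eq_of_le (hb hjk) with h | h
      · exact hl j k h
      · exact (hlb j k h).ge
    exact Int.toNat_le_toNat h1
  obtain ⟨N, hN, d', hd', hG⟩ := semiample_of_gg hb hla (fun j k h => by
    simp only [l', hlb j k h]) (L := L) (c := c) (expo_pos (Module.finrank ℂ V)) fun w => by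
      obtain ⟨k, hk1, hk⟩ := exists_comb hb T hl hlb hw w
      have hk' : ∀ i, ∑ α ∈ T, k α * row α i = (∑ α ∈ T, k α) * l' (w.symm i) := by
        intro i
        have h1 := hk (w.symm i)
        rw [Equiv.apply_symm_apply, ← hl'] at h1
        exact_mod_cast h1
      obtain ⟨P, hP, hP0, hPe⟩ := base_pair T f row hf hT hrel k hk'
      refine ⟨∑ α ∈ T, k α, hk1, gg_tw hΓ hρ hL hc hP hP0 hPe ?_⟩
      rcases hn with hn | hn
      · have h1 := hn w
        have h2 : ∀ v v', ∑ i, ((l' (w.symm i) : ℕ) : ℂ) * Hc i v v'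
            = ∑ j, (l j : ℂ) * Hc (w j) v v' := by
          intro v v'
          rw [← Equiv.sum_comp w fun i => ((l' (w.symm i) : ℕ) : ℂ) * Hc i v v']
          refine Finset.sum_congr rfl fun j _ => ?_
          rw [Equiv.symm_apply_apply, ← hl' j]
          push_cast
          rfl
        simp only [h2]
        exact h1
      · exact nef_of_pair hΓ hρ.holo hn hL hc hk1 hP hP0 hPe
  refine ⟨N, hN, d', fun j => ?_, hG⟩
  rw [hd' j, ← hl' j]
  push_cast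
  rfl

/-- Abundance for pairs on flag bundles over torus quotients. -/
theorem abundance (hΓ : IsTorusQuotient Γ) {ρ : V → ℂ} (hρ : IsRamification Γ ρ)
    {b : Fin q → ℕ} (hb : Monotone b)
    {c : Fin q → LineBundle Γ} {Hc : Fin q → V → V → ℂ} (hc : ∀ i, IsChernForm (c i) (Hc i))
    {m : ℕ} (hm : 1 ≤ m) {d : ℕ → ℕ} {F : V → MvPolynomial (Fin q × Fin q) ℂ} {L : LineBundle Γ}
    {H : V → V → ℂ} (hL : IsChernForm L H) (hF : IsLogPluricanonical b c m ρ d F L)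
    {v₀ : V} (hlc : IsLogCanonical b m (F v₀))
    (hnef : IsNef b Hc (fun j => d (b j) - m * anti b j) H) :
    ∃ N : ℕ, 1 ≤ N ∧ ∃ d' : ℕ → ℕ, (∀ j, (d' (b j) : ℤ) = N * (d (b j) - m * anti b j)) ∧
      ∀ (v : V) (g : Matrix (Fin q) (Fin q) ℂ), g.det ≠ 0 →
        ∃ G, IsSection b c d' (fun γ v => L.e γ v ^ N) G ∧ ev g (G v) ≠ 0 := by
  refine abundance₀ (m := m) hΓ hρ hb hc hL (T := (F v₀).support) (f := fun α v => coeff α (F v)) hF.holo
    (fun α hα => ⟨v₀, mem_support_iff.1 hα⟩) (fun α _ γ v => ?_) hnef.1 (fun j k h => ?_)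
    (fun w a ha => weights (fun α hα j => col_of_semi (hF.semi v₀) hα j) w a ha
      (weights_of_lc hm hlc w a ha)) (Or.inl hnef.2)
  · refine coeff_rel (fun g => ?_) α
    rw [hF.eq γ v g]
    ring
  · simp only [anti, h]

/-- Over a base without reflections nefness on the fibres suffices. -/
theorem abundance_no_mirror (hΓ : IsTorusQuotient Γ) {ρ : V → ℂ} (hρ : IsRamification Γ ρ)
    (hρ0 : ∀ v, ¬ OnMirror Γ v) {b : Fin q → ℕ} (hb : Monotone b)
    {c : Fin q → LineBundle Γ} {Hc : Fin q → V → V → ℂ} (hc : ∀ i, IsChernForm (c i) (Hc i))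
    {m : ℕ} (hm : 1 ≤ m) {d : ℕ → ℕ} {F : V → MvPolynomial (Fin q × Fin q) ℂ} {L : LineBundle Γ}
    {H : V → V → ℂ} (hL : IsChernForm L H) (hF : IsLogPluricanonical b c m ρ d F L)
    {v₀ : V} (hlc : IsLogCanonical b m (F v₀))
    (hnef : IsFibreNef b fun j => d (b j) - m * anti b j) :
    ∃ N : ℕ, 1 ≤ N ∧ ∃ d' : ℕ → ℕ, (∀ j, (d' (b j) : ℤ) = N * (d (b j) - m * anti b j)) ∧
      ∀ (v : V) (g : Matrix (Fin q) (Fin q) ℂ), g.det ≠ 0 →
        ∃ G, IsSection b c d' (fun γ v => L.e γ v ^ N) G ∧ ev g (G v) ≠ 0 := by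
  refine abundance₀ (m := m) hΓ hρ hb hc hL (T := (F v₀).support) (f := fun α v => coeff α (F v))
    hF.holo (fun α hα => ⟨v₀, mem_support_iff.1 hα⟩) (fun α _ γ v => ?_) hnef (fun j k h => ?_)
    (fun w a ha => weights (fun α hα j => col_of_semi (hF.semi v₀) hα j) w a ha
      (weights_of_lc hm hlc w a ha)) (Or.inr fun v h => hρ0 v ((hρ.zero_iff v).1 h))
  · refine coeff_rel (fun g => ?_) α
    rw [hF.eq γ v g]
    ring
  · simp only [anti, h]

end Q47.FL
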