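import Pool.Agent.TH735.AQ.MirDefs

/-!
# Flag bundles over quotients of complex tori: definitions

Let `X = V / Γ` be the quotient of a complex torus by a finite group, let `c_i`, `i < q`, be line
bundles on `X`, and let the weakly increasing function `b : Fin q → ℕ` describe a type of partial
flags: the number of the `j` with `b j ≤ l` is the dimension of the `l`-th member `F_l` of the flag.
The bundle `Y → X` of the flags `F_0 ⊆ F_1 ⊆ ...` in the fibres of the vector bundle `⊕ c_i` is the
quotient of `V × GL_q` by the action `γ (v, g) = (γ v, (c_i(γ, v) g_{ij})_{ij})` of `Γ` and by the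
group `P` of all invertible `p` with `p_{ij} = 0` for `b j < b i`, which acts on `GL_q` from the
right: the point `(v, g)` is the flag whose member `F_l` is spanned by the columns `j` of `g` with
`b j ≤ l`. All fibres are isomorphic to the homogeneous space `GL_q / P`. (For `b = (0, 1, ..., 1)`
the bundle `Y` is the projective bundle of lines in `⊕ c_i`.)
-/

set_option autoImplicit false

namespace Q47.FL

open Pool.Agent.W594.SYZ2 Pool.Agent.TH735.AQ MvPolynomial

variable {V : Type*} [NormedAddCommGroup V] [NormedSpace ℂ V] {Γ : Subgroup (V ≃ᵃ[ℂ] V)} {q : ℕ}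

/-- The value of a polynomial in the entries of a `q × q` matrix at the matrix `g`. -/
noncomputable def ev (g : Matrix (Fin q) (Fin q) ℂ) (p : MvPolynomial (Fin q × Fin q) ℂ) : ℂ :=
  eval (fun x => g x.1 x.2) p

/-- The polynomial `p` in the entries of a matrix is semi-invariant under `P`: it is multiplied by
`t ^ d (b j)` if the column `j` is multiplied by `t`, and it does not change if a multiple of the
column `j` is added to the column `k ≠ j`, where `b j ≤ b k`. (These operations generate `P`.) -/
structure IsSemiInvariant (b : Fin q → ℕ) (d : ℕ → ℕ) (p : MvPolynomial (Fin q × Fin q) ℂ) :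
    Prop where
  scale : ∀ (g : Matrix (Fin q) (Fin q) ℂ) (j : Fin q) (t : ℂ),
    ev (g.updateCol j fun i => t * g i j) p = t ^ d (b j) * ev g p
  shear : ∀ (g : Matrix (Fin q) (Fin q) ℂ) (j k : Fin q) (t : ℂ), j ≠ k → b j ≤ b k →
    ev (g.updateCol k fun i => g i k + t * g i j) p = ev g p

/-- `F` is a section of the line bundle `O_Y(d; e)` on `Y`: a polynomial `F(v, g)` in the entries of
the matrix `g`, with entire coefficients, semi-invariant under `P` of the weight `d` (on the line
bundle `O_Y(d; e)` the block `b = l` of `p ∈ P` acts by `det ^ d_l`), with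
`F(γ v, c(γ, v) g) = e(γ, v) F(v, g)`. -/
structure IsSection (b : Fin q → ℕ) (c : Fin q → LineBundle Γ) (d : ℕ → ℕ) (e : Γ → V → ℂ)
    (F : V → MvPolynomial (Fin q × Fin q) ℂ) : Prop where
  holo : ∀ α, Differentiable ℂ fun v => (F v).coeff α
  semi : ∀ v, IsSemiInvariant b d (F v)
  eq : ∀ (γ : Γ) (v : V) (g : Matrix (Fin q) (Fin q) ℂ),
    ev (Matrix.of fun i j => (c i).e γ v * g i j) (F ((γ : V ≃ᵃ[ℂ] V) v)) = e γ v * ev g (F v)

/-- The anticanonical class of the flag variety: the canonical bundle of `Y` over `X` is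
`O_Y(-anti; 1)`, since a diagonal matrix `p` has on the tangent space `gl_q / Lie P`, spanned by the
matrix units `(k, j)` with `b j < b k`, the determinant `∏ p_{jj} ^ (-anti_j)`. -/
def anti (b : Fin q → ℕ) (j : Fin q) : ℤ :=
  ((Finset.univ.filter fun k => b j < b k).card : ℤ) - (Finset.univ.filter fun k => b k < b j).card

/-- `F` defines the effective divisor `m Δ` on `Y` and `L` gives the line bundle
`O_Y(m (K_Y + Δ)) = O_Y(d - m anti; L)`: here `F(v, g)` is a polynomial in the entries of `g` with
entire coefficients, semi-invariant of the weight `d`, and for a local section `G` of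
`O_Y(d - m anti; L)` the `m`-canonical form `G ρ ^ m / F (dv ∧ ω) ^ m` is invariant under `Γ` and
`P`, where `ω` is the left invariant form on `GL_q` with values in the canonical bundle of
`GL_q / P`. (`ρ` defines the ramification divisor of `V → X`.) -/
structure IsLogPluricanonical (b : Fin q → ℕ) (c : Fin q → LineBundle Γ) (m : ℕ) (ρ : V → ℂ)
    (d : ℕ → ℕ) (F : V → MvPolynomial (Fin q × Fin q) ℂ) (L : LineBundle Γ) : Prop where
  holo : ∀ α, Differentiable ℂ fun v => (F v).coeff α
  semi : ∀ v, IsSemiInvariant b d (F v)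
  eq : ∀ (γ : Γ) (v : V) (g : Matrix (Fin q) (Fin q) ℂ),
    ev (Matrix.of fun i j => (c i).e γ v * g i j) (F ((γ : V ≃ᵃ[ℂ] V) v)) * ρ v ^ m =
      L.e γ v * (LinearMap.det ((γ : V ≃ᵃ[ℂ] V).linear : V →ₗ[ℂ] V)) ^ m *
        ev g (F v) * ρ ((γ : V ≃ᵃ[ℂ] V) v) ^ m

/-- The positions in the strictly lower triangular blocks. -/
abbrev Low (b : Fin q → ℕ) : Type := {x : Fin q × Fin q // b x.2 < b x.1}

/-- The matrix `g (1 + y)`, where `y` is strictly lower block triangular. The map `y ↦ g (1 + y) P` is
an open embedding of the affine space into `GL_q / P`, and gives coordinates at the point `g P`. -/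
def chart (b : Fin q → ℕ) (g : Matrix (Fin q) (Fin q) ℂ) (y : Low b → ℂ) :
    Matrix (Fin q) (Fin q) ℂ :=
  g * (1 + Matrix.of fun i j => if h : b j < b i then y ⟨(i, j), h⟩ else 0)

/-- The pair formed by `GL_q / P` and the divisor `(1 / m) div f` is log canonical: for all `c < 1`
the function `|f| ^ (-2 c / m)` is locally integrable, in the coordinates `y` at all points `g`. -/
def IsLogCanonical (b : Fin q → ℕ) (m : ℕ) (f : MvPolynomial (Fin q × Fin q) ℂ) : Prop :=
  ∀ g : Matrix (Fin q) (Fin q) ℂ, g.det ≠ 0 → ∀ c : ℝ, c < 1 →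
    ∃ r > 0, ∫⁻ y in Metric.ball (0 : Low b → ℂ) r, ‖ev (chart b g y) f‖ₑ ^ (-(2 * c / m)) < ⊤

/-- The line bundle `O(l)` on `GL_q / P` is nef (that is, generated by global sections): the weight
`l` is dominant. -/
def IsFibreNef (b : Fin q → ℕ) (l : Fin q → ℤ) : Prop := ∀ j k, b j < b k → l k ≤ l j

/-- The line bundle `O_Y(l; L)` is nef on the fibres of `Y → X` and on the sections `X → Y` given by
the permutations `w` (at each `v` the flag given by the permutation matrix of `w`, on which
`O_Y(l; L)` is the line bundle `L ⊗ ∏ c_{w j} ^ (- l_j)`). Here `H` and `Hc i` are the Chern forms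
of `L` and `c i`. -/
def IsNef (b : Fin q → ℕ) (Hc : Fin q → V → V → ℂ) (l : Fin q → ℤ) (H : V → V → ℂ) : Prop :=
  IsFibreNef b l ∧ ∀ w : Equiv.Perm (Fin q),
    IsNefForm fun v v' => H v v' - ∑ j, (l j : ℂ) * Hc (w j) v v'

/-- The divisors `F_j = 0` on `Y` are smooth and have normal crossings: at each point `(v, g)` of `Y`
the differentials of those `F_j` which vanish at the point are linearly independent, in the
coordinates `(v, y)` of `Y` at the point `(v, g)`. -/
def IsNormalCrossing (b : Fin q → ℕ) {k : ℕ} (F : Fin k → V → MvPolynomial (Fin q × Fin q) ℂ) :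
    Prop :=
  ∀ (v : V) (g : Matrix (Fin q) (Fin q) ℂ), g.det ≠ 0 →
    LinearIndependent ℂ fun j : {j : Fin k // ev g (F j v) = 0} =>
      fderiv ℂ (fun p : V × (Low b → ℂ) => ev (chart b g p.2) (F j p.1)) (v, 0)

end Q47.FL
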