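import Pool.Agent.Q47.FL.Weights
import Mathlib.Algebra.Order.Rearrangement
import Mathlib.Data.Fin.Tuple.Sort

/-!
# The extremal adjoint weights are in the Newton polytope
-/

set_option autoImplicit false

namespace Q47.FL

open MvPolynomial

variable {q : ℕ}

/-- The extremal adjoint weights are in the Newton polytope. -/
theorem exists_comb {b : Fin q → ℕ} (hb : Monotone b) (T : Finset (Fin q × Fin q →₀ ℕ))
    {l : Fin q → ℤ} (hl : ∀ j k, b j < b k → l k ≤ l j) (hlb : ∀ j k, b j = b k → l j = l k)
    (hw : ∀ (w : Equiv.Perm (Fin q)) (a : Fin q → ℤ), (∀ j k, b j < b k → a (w j) < a (w k)) →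
      ∃ α ∈ T, ∑ i, a i * row α i ≤ ∑ j, a (w j) * l j) (w₀ : Equiv.Perm (Fin q)) :
    ∃ k : (Fin q × Fin q →₀ ℕ) → ℕ, 1 ≤ ∑ α ∈ T, k α ∧
      ∀ j, ((∑ α ∈ T, k α * row α (w₀ j) : ℕ) : ℤ) = ((∑ α ∈ T, k α : ℕ) : ℤ) * l j := by
  classical
  have hbj : ∀ j k : Fin q, b j < b k → j < k := fun j k h => by
    by_contra hcon
    exact absurd (hb (not_lt.1 hcon)) (not_le.2 h)
  have hla : Antitone l := by
    intro j k hjk
    rcases lt_or_eq_of_le (hb hjk) with h | h
    · exact hl j k h
    · exact (hlb j k h).ge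
  let Q : T → Fin q → ℤ := fun α i => row α.1 i - l (w₀.symm i)
  have hTne : T.Nonempty := by
    obtain ⟨α, hα, -⟩ := hw 1 (fun j => (j : ℤ)) fun j k h => by
      have := hbj j k h
      simpa using this
    exact ⟨α, hα⟩
  have : Nonempty T := ⟨⟨_, hTne.choose_spec⟩⟩
  have hsum : ∀ (a : Fin q → ℤ) (α : T), ∑ i, Q α i * a i
      = ∑ i, a i * row α.1 i - ∑ j, a (w₀ j) * l j := by
    intro a α
    simp only [Q, sub_mul, Finset.sum_sub_distrib]
    congr 1
    · exact Finset.sum_congr rfl fun i _ => mul_comm _ _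
    · rw [← Equiv.sum_comp w₀ fun i => l (w₀.symm i) * a i]
      exact Finset.sum_congr rfl fun i _ => by rw [Equiv.symm_apply_apply, mul_comm]
  have hhull : (0 : Fin q → ℝ) ∈ convexHull ℝ (Set.range fun j => fun k => (Q j k : ℝ)) := by
    by_contra hcon
    obtain ⟨a, ha⟩ := TB.sep_of_not_hull Q hcon
    -- a generic functional
    let η : T → ℤ := fun α => ∑ i, Q α i * (i : ℤ)
    let M : ℤ := q + 1 + ∑ α : T, |η α|
    have hη : ∀ α, |η α| ≤ ∑ α : T, |η α| := fun α =>
      Finset.single_le_sum (f := fun α => |η α|) (fun α _ => abs_nonneg _) (Finset.mem_univ α)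
    have hS0 : 0 ≤ ∑ α : T, |η α| := Finset.sum_nonneg fun α _ => abs_nonneg _
    have hMq : (q : ℤ) < M := by simp only [M]; linarith
    let a' : Fin q → ℤ := fun i => M * a i + i
    have ha' : ∀ α, 0 < ∑ i, Q α i * a' i := by
      intro α
      have h1 : ∑ i, Q α i * a' i = M * ∑ i, Q α i * a i + η α := by
        simp only [a', η, mul_add, Finset.sum_add_distrib, Finset.mul_sum]
        congr 1
        exact Finset.sum_congr rfl fun i _ => by ring
      have h2 := ha α
      have h3 := abs_le.1 (hη α)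
      have h4 : 0 < M := lt_of_le_of_lt (Int.natCast_nonneg q) hMq
      have h5 : M * 1 ≤ M * ∑ i, Q α i * a i := mul_le_mul_of_nonneg_left (by omega) h4.le
      rw [h1]
      simp only [M] at h5 ⊢
      linarith [h3.1, Int.natCast_nonneg q]
    have hinj : Function.Injective a' := by
      intro i j h
      have h1 : M * (a i - a j) = (j : ℤ) - i := by
        simp only [a'] at h
        linarith
      have hi : (i : ℤ) < q := by exact_mod_cast i.2
      have hj : (j : ℤ) < q := by exact_mod_cast j.2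
      have hi0 : (0 : ℤ) ≤ i := Int.natCast_nonneg _
      have hj0 : (0 : ℤ) ≤ j := Int.natCast_nonneg _
      have h2 : a i - a j = 0 := by
        by_contra hne
        rcases lt_or_gt_of_ne hne with h3 | h3
        · have h4 : M * (a i - a j) ≤ M * (-1) := mul_le_mul_of_nonneg_left (by omega) (by linarith)
          linarith
        · have h4 : M * 1 ≤ M * (a i - a j) := mul_le_mul_of_nonneg_left (by omega) (by linarith)
          linarith
      rw [h2, mul_zero] at h1
      apply Fin.ext
      omega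
    have hmono : StrictMono (a' ∘ Tuple.sort a') :=
      (Tuple.monotone_sort a').strictMono_of_injective
        (hinj.comp (Tuple.sort a').injective)
    obtain ⟨α, hα, hle⟩ := hw (Tuple.sort a') a' fun j k h => hmono (hbj j k h)
    have h1 := ha' ⟨α, hα⟩
    rw [hsum] at h1
    have h2 : ∑ j, a' (Tuple.sort a' j) * l j ≤ ∑ j, a' (w₀ j) * l j := by
      have h3 : Antivary (a' ∘ Tuple.sort a') l := fun i j hij =>
        hmono.monotone (by
          by_contra hcon
          exact absurd (hla (not_le.1 hcon).le) (not_le.2 hij))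
      have h4 := h3.sum_mul_le_sum_mul_comp_perm (σ := (Tuple.sort a').trans w₀.symm)
      refine h4.trans (le_of_eq ?_)
      rw [← ((Tuple.sort a').trans w₀.symm).sum_comp fun j => a' (w₀ j) * l j]
      refine Finset.sum_congr rfl fun j _ => ?_
      simp
    linarith
  obtain ⟨r, g, k, hk1, hk⟩ := TB.int_of_hull Q hhull
  have key : ∀ F : (Fin q × Fin q →₀ ℕ) → ℕ,
      ∑ α ∈ T, (∑ s, if (g s : Fin q × Fin q →₀ ℕ) = α then k s else 0) * F α
      = ∑ s, k s * F (g s) := by
    intro F
    simp only [Finset.sum_mul, ite_mul, zero_mul]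
    rw [Finset.sum_comm]
    refine Finset.sum_congr rfl fun s _ => ?_
    rw [Finset.sum_ite_eq, if_pos (g s).2]
  have key1 : ∑ α ∈ T, (∑ s, if (g s : Fin q × Fin q →₀ ℕ) = α then k s else 0) = ∑ s, k s := by
    have := key fun _ => 1
    simpa using this
  refine ⟨fun α => ∑ s, if (g s : Fin q × Fin q →₀ ℕ) = α then k s else 0, ?_, fun j => ?_⟩
  · rw [key1]
    exact hk1
  · rw [key fun α => row α (w₀ j), key1]
    have h1 := hk (w₀ j)
    simp only [Q, Equiv.symm_apply_apply, mul_sub, Finset.sum_sub_distrib] at h1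
    push_cast
    rw [Finset.sum_mul]
    linarith

end Q47.FL
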