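import Pool.Agent.Q47.FL.Main
import Pool.Agent.Q47.TB.Snc2

/-!
# Abundance for complete intersections in flag bundles
-/

set_option autoImplicit false

namespace Q47.FL

open Pool.Agent.W594.SYZ2 Pool.Agent.W594.SYZ2.TQ Pool.Agent.TH735.AQ MvPolynomial Q47.EB Q47.KN
open Q47.TB (tw chern_tw gg_tw nef_of_pair exists_common_prod prod_diff coeff_of_eval ram_one dt
  dt_ne Kx chern_Kx)

variable {V : Type*} [NormedAddCommGroup V] [NormedSpace ℂ V]
  {Γ : Subgroup (V ≃ᵃ[ℂ] V)} {q : ℕ}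

/-- The weight of a monomial of the chart polynomial. -/
theorem weight_eq {b : Fin q → ℕ} {d : ℕ → ℕ} {f : MvPolynomial (Fin q × Fin q) ℂ}
    (hcol : ∀ α ∈ f.support, ∀ j, col α j = d (b j)) (w : Equiv.Perm (Fin q)) (a : Fin q → ℤ)
    {β : Low b →₀ ℕ} (hβ : β ∈ (cp b w f).support) :
    ∃ α ∈ f.support, ∑ x : Low b, (a (w x.1.1) - a (w x.1.2)) * (β x : ℤ)
      = ∑ i, a i * row α i - ∑ j, a (w j) * d (b j) := by
  classical
  obtain ⟨α, hα, hgood, rfl⟩ := of_mem_cp hβ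
  refine ⟨α, hα, ?_⟩
  have h2 : (∑ x : Low b, (a (w x.1.1) - a (w x.1.2)) * ((∑ y, α y • de b w y) x : ℕ) : ℤ)
      = ∑ y : Fin q × Fin q, (a y.1 - a (w y.2)) * α y := by
    simp only [Finsupp.finsetSum_apply, Finsupp.smul_apply, smul_eq_mul, Nat.cast_sum,
      Finset.mul_sum]
    rw [Finset.sum_comm]
    refine Finset.sum_congr rfl fun y _ => ?_
    by_cases hy : α y = 0
    · simp [hy]
    rcases hgood y hy with h3 | h3
    · have h4 : ¬ b y.2 < b (w.symm y.1) := by rw [h3]; exact lt_irrefl _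
      have h5 : a y.1 - a (w y.2) = 0 := by rw [← h3, Equiv.apply_symm_apply, sub_self]
      rw [h5, zero_mul]
      refine Finset.sum_eq_zero fun x _ => ?_
      rw [de, dif_neg h4]
      simp
    · rw [Finset.sum_eq_single ⟨(w.symm y.1, y.2), h3⟩]
      · rw [de, dif_pos h3, Finsupp.single_eq_same]
        simp
      · intro x _ hx
        rw [de, dif_pos h3, Finsupp.single_eq_of_ne hx]
        simp
      · intro h
        exact absurd (Finset.mem_univ _) h
  rw [h2]
  simp only [sub_mul, Finset.sum_sub_distrib]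
  congr 1
  · rw [Fintype.sum_prod_type]
    refine Finset.sum_congr rfl fun i _ => ?_
    rw [row, Nat.cast_sum, Finset.mul_sum]
  · rw [Fintype.sum_prod_type_right]
    refine Finset.sum_congr rfl fun j _ => ?_
    rw [← hcol α hα j, col, Nat.cast_sum, Finset.mul_sum]

/-- Finitely many monomials have given column degrees. -/
theorem finite_col (D : Fin q → ℕ) :
    {α : Fin q × Fin q →₀ ℕ | ∀ j, col α j = D j}.Finite := by
  classical
  refine (Set.finite_Iic (Finsupp.equivFunOnFinite.symm fun x : Fin q × Fin q => D x.2)).subset ?_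
  intro α hα
  rw [Set.mem_Iic]
  intro x
  rw [Finsupp.equivFunOnFinite_symm_apply_apply, ← hα x.2, col]
  exact Finset.single_le_sum (f := fun i => α (i, x.2)) (fun _ _ => Nat.zero_le _)
    (Finset.mem_univ x.1)

theorem chart_zero (b : Fin q → ℕ) (g : Matrix (Fin q) (Fin q) ℂ) : chart b g 0 = g := by
  rw [chart]
  have h1 : (Matrix.of fun i j => if h : b j < b i then (0 : Low b → ℂ) ⟨(i, j), h⟩ else 0)
      = (0 : Matrix (Fin q) (Fin q) ℂ) := by
    ext i j
    simp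
  rw [h1, add_zero, mul_one]

/-- The weight inequality for normal crossing divisors. -/
theorem weights_of_nc {b : Fin q → ℕ} {k : ℕ}
    {F : Fin k → V → MvPolynomial (Fin q × Fin q) ℂ} (h : IsNormalCrossing b F)
    {d : Fin k → ℕ → ℕ} (hsemi : ∀ j v, IsSemiInvariant b (d j) (F j v))
    (w : Equiv.Perm (Fin q)) (a : Fin q → ℤ) (ha : ∀ j k, b j < b k → a (w j) < a (w k)) :
    ∃ α : Fin k → Fin q × Fin q →₀ ℕ, (∀ j, ∃ v, coeff (α j) (F j v) ≠ 0) ∧
      ∑ i, a i * row (∑ j, α j) i ≤ ∑ i, a (w i) * (∑ j, (d j (b i) : ℤ) - anti b i) := by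
  classical
  have hnc : TB.IsNormalCrossing (S := {Set.univ}) fun j v => cp b w (F j v) := by
    intro v x hx
    have hx0 : x = 0 := by
      funext i
      have : i ∈ {i | x i = 0} := by
        rw [Set.mem_singleton_iff.1 hx]
        trivial
      exact this
    subst hx0
    have h1 := h v (pm w) (pm_det w)
    have h2 := h1.comp (fun j : {j : Fin k // eval (0 : Low b → ℂ) (cp b w (F j v)) = 0} =>
      (⟨j, by
        have := j.2
        rw [eval_cp, chart_zero] at this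
        exact this⟩ : {j : Fin k // ev (pm w) (F j v) = 0}))
      (fun i j hij => Subtype.ext (congrArg (fun z : {j : Fin k // ev (pm w) (F j v) = 0} => z.1) hij))
    have h3 : (fun j : {j : Fin k // eval (0 : Low b → ℂ) (cp b w (F j v)) = 0} =>
        fderiv ℂ (fun p : V × (Low b → ℂ) => eval p.2 (cp b w (F j p.1))) (v, 0))
        = fun j : {j : Fin k // eval (0 : Low b → ℂ) (cp b w (F j v)) = 0} =>
        fderiv ℂ (fun p : V × (Low b → ℂ) => ev (chart b (pm w) p.2) (F j p.1)) (v, 0) := by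
      funext j
      simp only [eval_cp]
    change LinearIndependent ℂ (fun j : {j : Fin k // eval (0 : Low b → ℂ) (cp b w (F j v)) = 0} =>
        fderiv ℂ (fun p : V × (Low b → ℂ) => eval p.2 (cp b w (F j p.1))) (v, 0))
    rw [h3]
    exact h2
  have hpos : ∀ x : Low b, 0 ≤ a (w x.1.1) - a (w x.1.2) := fun x => by
    have := ha x.1.2 x.1.1 x.2
    omega
  obtain ⟨t, ht, hle⟩ := TB.weights_of_nc hnc (fun x => (a (w x.1.1) - a (w x.1.2)).toNat) (by
    rw [Set.mem_singleton_iff, Set.eq_univ_iff_forall]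
    intro x
    have := ha x.1.2 x.1.1 x.2
    change (a (w x.1.1) - a (w x.1.2)).toNat ≠ 0
    omega)
  choose v hv using ht
  choose α hα hαe using fun j => weight_eq (fun α hα i => col_of_semi (hsemi j (v j)) hα i) w a
    (mem_support_iff.2 (hv j))
  refine ⟨α, fun j => ⟨v j, mem_support_iff.1 (hα j)⟩, ?_⟩
  have h1 : (∑ j, ∑ x : Low b, (a (w x.1.1) - a (w x.1.2)) * (t j x : ℤ))
      ≤ ∑ x : Low b, (a (w x.1.1) - a (w x.1.2)) := by
    have h2 : ((∑ j, ∑ x : Low b, (a (w x.1.1) - a (w x.1.2)).toNat * t j x : ℕ) : ℤ)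
        ≤ ((∑ x : Low b, (a (w x.1.1) - a (w x.1.2)).toNat : ℕ) : ℤ) := by exact_mod_cast hle
    rw [Nat.cast_sum, Nat.cast_sum] at h2
    simp only [Nat.cast_sum, Nat.cast_mul, Int.toNat_of_nonneg (hpos _)] at h2
    exact h2
  simp only [hαe] at h1
  rw [sum_low b fun j => a (w j), Finset.sum_sub_distrib] at h1
  have h2 : ∑ i, a i * (row (∑ j, α j) i : ℤ) = ∑ j, ∑ i, a i * (row (α j) i : ℤ) := by
    rw [Finset.sum_comm]
    refine Finset.sum_congr rfl fun i _ => ?_
    rw [← Finset.mul_sum]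
    congr 1
    simp only [row, Finsupp.finsetSum_apply]
    rw [Finset.sum_comm]
    push_cast
    rfl
  have h3 : ∑ i, a (w i) * (∑ j, (d j (b i) : ℤ) - anti b i)
      = ∑ j, ∑ i, a (w i) * (d j (b i) : ℤ) - ∑ i, a (w i) * anti b i := by
    simp only [mul_sub, Finset.sum_sub_distrib, Finset.mul_sum]
    rw [Finset.sum_comm]
  rw [h2, h3]
  linarith

/-- Abundance for the strata of normal crossing divisors. -/
theorem abundance_snc [FiniteDimensional ℂ V] (hΓ : IsTorusQuotient Γ)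
    (hfree : ∀ γ ∈ Γ, ∀ v, γ v = v → γ = 1)
    {b : Fin q → ℕ} (hb : Monotone b)
    {c : Fin q → LineBundle Γ} {Hc : Fin q → V → V → ℂ} (hc : ∀ i, IsChernForm (c i) (Hc i))
    {k : ℕ} {E : Fin k → LineBundle Γ} {HE : Fin k → V → V → ℂ}
    (hE : ∀ j, IsChernForm (E j) (HE j))
    {d : Fin k → ℕ → ℕ} {F : Fin k → V → MvPolynomial (Fin q × Fin q) ℂ}
    (hF : ∀ j, IsSection b c (d j) (E j).e (F j)) (hnc : IsNormalCrossing b F)
    (hnef : IsFibreNef b fun i => ∑ j, (d j (b i) : ℤ) - anti b i) :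
    ∃ N : ℕ, 1 ≤ N ∧ ∃ d' : ℕ → ℕ,
      (∀ i, (d' (b i) : ℤ) = N * (∑ j, (d j (b i) : ℤ) - anti b i)) ∧
      ∀ (v : V) (g : Matrix (Fin q) (Fin q) ℂ), g.det ≠ 0 →
        ∃ G, IsSection b c d' (fun γ v => ((∏ j, (E j).e γ v) * (dt γ)⁻¹) ^ N) G ∧
          ev g (G v) ≠ 0 := by
  classical
  have hfinT : ∀ j, {α : Fin q × Fin q →₀ ℕ | ∃ v, coeff α (F j v) ≠ 0}.Finite := fun j =>
    (finite_col fun i => d j (b i)).subset fun α ⟨v, hv⟩ i =>
      col_of_semi ((hF j).semi v) (mem_support_iff.2 hv) i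
  let Tj : Fin k → Finset (Fin q × Fin q →₀ ℕ) := fun j => (hfinT j).toFinset
  have hTj : ∀ j α, α ∈ Tj j ↔ ∃ v, coeff α (F j v) ≠ 0 := fun j α => by
    simp only [Tj, Set.Finite.mem_toFinset, Set.mem_ofPred_eq]
  let T : Finset (Fin q × Fin q →₀ ℕ) := (Fintype.piFinset Tj).image fun t => ∑ j, t j
  have hT : ∀ α ∈ T, ∃ t : Fin k → Fin q × Fin q →₀ ℕ, (∀ j, ∃ v, coeff (t j) (F j v) ≠ 0) ∧
      ∑ j, t j = α := by
    intro α hα
    obtain ⟨t, ht, h⟩ := Finset.mem_image.1 hα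
    exact ⟨t, fun j => (hTj j _).1 (Fintype.mem_piFinset.1 ht j), h⟩
  choose! g hg1 hg2 using hT
  let f : (Fin q × Fin q →₀ ℕ) → V → ℂ := fun α v => ∏ j, coeff (g α j) (F j v)
  have hL := Q47.MM.chern_adj (chern_Kx hΓ hfree) hE 1 fun _ => 1
  have hLe : ∀ (γ : Γ) v, (Q47.MM.adj (Kx hfree) E 1 fun _ => 1).e γ v
      = (∏ j, (E j).e γ v) * (dt γ)⁻¹ := by
    intro γ v
    change (dt γ)⁻¹ ^ 1 * ∏ j, (E j).e γ v ^ 1 = _
    simp only [pow_one]
    ring
  obtain ⟨N, hN, d', hd', hG⟩ := abundance₀ (m := 1) (ρ := fun _ => 1)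
    (L := Q47.MM.adj (Kx hfree) E 1 fun _ => 1) hΓ (ram_one hfree) hb hc hL (T := T) (f := f)
    (fun α => prod_diff Finset.univ (fun j v => coeff (g α j) (F j v)) fun j => (hF j).holo _)
    (fun α hα => exists_common_prod Finset.univ (fun j v => coeff (g α j) (F j v))
      (fun j _ => (hF j).holo _) fun j _ => hg1 α hα j)
    (fun α hα γ v => by
      rw [hLe]
      change (∏ j, coeff (g α j) (F j ((γ : V ≃ᵃ[ℂ] V) v))) * _ * 1 ^ 1
        = _ * dt γ ^ 1 * 1 ^ 1 * ∏ j, coeff (g α j) (F j v)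
      simp only [mul_one, pow_one]
      rw [inv_mul_cancel_right₀ (dt_ne γ)]
      have h1 : (∏ i, (c i).e γ v ^ row α i) = ∏ j, ∏ i, (c i).e γ v ^ row (g α j) i := by
        rw [Finset.prod_comm]
        refine Finset.prod_congr rfl fun i _ => ?_
        rw [Finset.prod_pow_eq_pow_sum]
        congr 1
        conv_lhs => rw [← hg2 α hα]
        simp only [row, Finsupp.finsetSum_apply]
        rw [Finset.sum_comm]
      rw [h1, ← Finset.prod_mul_distrib, ← Finset.prod_mul_distrib]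
      refine Finset.prod_congr rfl fun j _ => ?_
      have h2 := coeff_rel (c := c) (γ := γ) (v := v) (a := 1) (b := (E j).e γ v)
        (F := F j ((γ : V ≃ᵃ[ℂ] V) v)) (G := F j v)
        (fun g => by rw [mul_one]; exact (hF j).eq γ v g) (g α j)
      rw [mul_one] at h2
      exact h2)
    (l := fun i => ∑ j, (d j (b i) : ℤ) - anti b i) hnef
    (fun i i' h => by simp only [anti, h])
    (fun w a ha => by
      obtain ⟨α, hα1, hα2⟩ := weights_of_nc hnc (fun j v => (hF j).semi v) w a ha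
      exact ⟨∑ j, α j, Finset.mem_image.2 ⟨α, Fintype.mem_piFinset.2 fun j =>
        (hTj j _).2 (hα1 j), rfl⟩, hα2⟩)
    (Or.inr fun _ => one_ne_zero)
  refine ⟨N, hN, d', hd', fun v g hg => ?_⟩
  obtain ⟨G, hG, hG0⟩ := hG v g hg
  refine ⟨G, ⟨hG.holo, hG.semi, fun γ v g => ?_⟩, hG0⟩
  rw [hG.eq γ v g, hLe]

end Q47.FL
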