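import Pool.Agent.Q47.FL.Snc

/-!
# Abundance for complete intersections in flag bundles over arbitrary torus quotients
-/

set_option autoImplicit false

namespace Q47.FL

open Pool.Agent.W594.SYZ2 Pool.Agent.W594.SYZ2.TQ Pool.Agent.TH735.AQ MvPolynomial Q47.EB Q47.KN
open Q47.TB (tw chern_tw gg_tw nef_of_pair exists_common_prod prod_diff coeff_of_eval)

variable {V : Type*} [NormedAddCommGroup V] [NormedSpace ℂ V]
  {Γ : Subgroup (V ≃ᵃ[ℂ] V)} {q : ℕ}

theorem row_smul (m : ℕ) (α : Fin q × Fin q →₀ ℕ) (i : Fin q) : row (m • α) i = m * row α i := by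
  rw [row, row, Finset.mul_sum]
  rfl

/-- The canonical class twisted by the hypersurfaces. -/
theorem chern_tot {K : LineBundle Γ} {HK : V → V → ℂ} (hK : IsChernForm K HK) {k : ℕ}
    {E : Fin k → LineBundle Γ} {HE : Fin k → V → V → ℂ} (hE : ∀ j, IsChernForm (E j) (HE j))
    (m : ℕ) :
    IsChernForm (Q47.MM.adj K E 1 fun _ => m) fun v v' => HK v v' + m * ∑ j, HE j v v' := by
  have h1 := Q47.MM.chern_adj hK hE 1 fun _ => m
  have h2 : Q47.MM.cls HK HE ((1 : ℕ) : ℝ) (fun _ => ((m : ℕ) : ℝ))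
      = fun v v' => HK v v' + m * ∑ j, HE j v v' := by
    funext v v'
    rw [Q47.MM.cls, Finset.mul_sum]
    push_cast
    rw [one_mul]
  rw [h2] at h1
  exact h1

/-- Abundance for the strata of normal crossing divisors over arbitrary torus quotients. -/
theorem abundance_tot [FiniteDimensional ℂ V] (hΓ : IsTorusQuotient Γ)
    {ρ : V → ℂ} (hρ : IsRamification Γ ρ) {m : ℕ} {K : LineBundle Γ}
    (hKc : Pool.Agent.TH735.AQ.IsLogPluricanonical K m ρ fun _ => 1)
    {HK : V → V → ℂ} (hK : IsChernForm K HK) {b : Fin q → ℕ} (hb : Monotone b)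
    {c : Fin q → LineBundle Γ} {Hc : Fin q → V → V → ℂ} (hc : ∀ i, IsChernForm (c i) (Hc i))
    {k : ℕ} {E : Fin k → LineBundle Γ} {HE : Fin k → V → V → ℂ}
    (hE : ∀ j, IsChernForm (E j) (HE j))
    {d : Fin k → ℕ → ℕ} {F : Fin k → V → MvPolynomial (Fin q × Fin q) ℂ}
    (hF : ∀ j, IsSection b c (d j) (E j).e (F j)) (hnc : IsNormalCrossing b F)
    (hnf : IsFibreNef b fun i => m * (∑ j, (d j (b i) : ℤ) - anti b i))
    (hn : (∀ w : Equiv.Perm (Fin q), IsNefForm fun v v' => HK v v' + m * ∑ j, HE j v v'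
      - ∑ i, ((m * (∑ j, (d j (b i) : ℤ) - anti b i) : ℤ) : ℂ) * Hc (w i) v v') ∨ ∀ v, ρ v ≠ 0) :
    ∃ N : ℕ, 1 ≤ N ∧ ∃ d' : ℕ → ℕ,
      (∀ i, (d' (b i) : ℤ) = N * (m * (∑ j, (d j (b i) : ℤ) - anti b i))) ∧
      ∀ (v : V) (g : Matrix (Fin q) (Fin q) ℂ), g.det ≠ 0 →
        ∃ G, IsSection b c d' (fun γ v => (K.e γ v * (∏ j, (E j).e γ v) ^ m) ^ N) G ∧
          ev g (G v) ≠ 0 := by
  classical
  have hfinT : ∀ j, {α : Fin q × Fin q →₀ ℕ | ∃ v, coeff α (F j v) ≠ 0}.Finite := fun j =>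
    (finite_col fun i => d j (b i)).subset fun α ⟨v, hv⟩ i =>
      col_of_semi ((hF j).semi v) (mem_support_iff.2 hv) i
  let Tj : Fin k → Finset (Fin q × Fin q →₀ ℕ) := fun j => (hfinT j).toFinset
  have hTj : ∀ j α, α ∈ Tj j ↔ ∃ v, coeff α (F j v) ≠ 0 := fun j α => by
    simp only [Tj, Set.Finite.mem_toFinset, Set.mem_ofPred_eq]
  let T : Finset (Fin q × Fin q →₀ ℕ) := (Fintype.piFinset Tj).image fun t => m • ∑ j, t j
  have hT : ∀ α ∈ T, ∃ t : Fin k → Fin q × Fin q →₀ ℕ, (∀ j, ∃ v, coeff (t j) (F j v) ≠ 0) ∧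
      m • ∑ j, t j = α := by
    intro α hα
    obtain ⟨t, ht, h⟩ := Finset.mem_image.1 hα
    exact ⟨t, fun j => (hTj j _).1 (Fintype.mem_piFinset.1 ht j), h⟩
  choose! g hg1 hg2 using hT
  let f : (Fin q × Fin q →₀ ℕ) → V → ℂ := fun α v => ∏ j, coeff (g α j) (F j v) ^ m
  have hL := chern_tot hK hE m
  have hLe : ∀ (γ : Γ) v, (Q47.MM.adj K E 1 fun _ => m).e γ v
      = K.e γ v * (∏ j, (E j).e γ v) ^ m := by
    intro γ v
    change K.e γ v ^ 1 * ∏ j, (E j).e γ v ^ m = _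
    rw [pow_one, Finset.prod_pow]
  obtain ⟨N, hN, d', hd', hG⟩ := abundance₀ (m := m) (ρ := ρ)
    (L := Q47.MM.adj K E 1 fun _ => m) hΓ hρ hb hc hL (T := T) (f := f)
    (fun α => prod_diff Finset.univ (fun j v => coeff (g α j) (F j v) ^ m)
      fun j => ((hF j).holo _).pow m)
    (fun α hα => exists_common_prod Finset.univ (fun j v => coeff (g α j) (F j v) ^ m)
      (fun j _ => ((hF j).holo _).pow m) fun j _ => by
        obtain ⟨v, hv⟩ := hg1 α hα j
        exact ⟨v, pow_ne_zero _ hv⟩)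
    (fun α hα γ v => by
      rw [hLe]
      set D := LinearMap.det ((γ : V ≃ᵃ[ℂ] V).linear : V →ₗ[ℂ] V) with hD
      have hcan : ρ v ^ m = K.e γ v * D ^ m * ρ ((γ : V ≃ᵃ[ℂ] V) v) ^ m := by
        have := hKc γ v
        simp only [one_mul, mul_one] at this
        exact this
      have h1 : (∏ i, (c i).e γ v ^ row α i) = ∏ j, (∏ i, (c i).e γ v ^ row (g α j) i) ^ m := by
        have h2 : ∀ i, row α i = ∑ j, row (g α j) i * m := by
          intro i
          conv_lhs => rw [← hg2 α hα]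
          rw [row_smul, ← Finset.sum_mul, mul_comm]
          congr 1
          simp only [row, Finsupp.finsetSum_apply]
          rw [Finset.sum_comm]
        simp only [← Finset.prod_pow]
        rw [Finset.prod_comm]
        refine Finset.prod_congr rfl fun i _ => ?_
        rw [h2 i, ← Finset.prod_pow_eq_pow_sum]
        exact Finset.prod_congr rfl fun j _ => pow_mul _ _ _
      have h3 : (∏ j, coeff (g α j) (F j ((γ : V ≃ᵃ[ℂ] V) v)) ^ m) *
          ∏ j, (∏ i, (c i).e γ v ^ row (g α j) i) ^ m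
          = (∏ j, (E j).e γ v) ^ m * ∏ j, coeff (g α j) (F j v) ^ m := by
        rw [← Finset.prod_pow, ← Finset.prod_mul_distrib, ← Finset.prod_mul_distrib]
        refine Finset.prod_congr rfl fun j _ => ?_
        have h2 := coeff_rel (c := c) (γ := γ) (v := v) (a := 1) (b := (E j).e γ v)
          (F := F j ((γ : V ≃ᵃ[ℂ] V) v)) (G := F j v)
          (fun g => by rw [mul_one]; exact (hF j).eq γ v g) (g α j)
        rw [mul_one] at h2
        rw [← mul_pow, h2, mul_pow]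
      change (∏ j, coeff (g α j) (F j ((γ : V ≃ᵃ[ℂ] V) v)) ^ m) * _ * ρ v ^ m
        = _ * ∏ j, coeff (g α j) (F j v) ^ m
      rw [h1, h3, hcan]
      ring)
    (l := fun i => m * (∑ j, (d j (b i) : ℤ) - anti b i)) hnf
    (fun i i' h => by simp only [anti, h])
    (fun w a ha => by
      obtain ⟨α, hα1, hα2⟩ := weights_of_nc hnc (fun j v => (hF j).semi v) w a ha
      refine ⟨m • ∑ j, α j, Finset.mem_image.2 ⟨α, Fintype.mem_piFinset.2 fun j =>
        (hTj j _).2 (hα1 j), rfl⟩, ?_⟩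
      have h1 : ∑ i, a i * (row (m • ∑ j, α j) i : ℤ) = m * ∑ i, a i * (row (∑ j, α j) i : ℤ) := by
        rw [Finset.mul_sum]
        refine Finset.sum_congr rfl fun i _ => ?_
        rw [row_smul]
        push_cast
        ring
      have h2 : ∑ i, a (w i) * (m * (∑ j, (d j (b i) : ℤ) - anti b i))
          = m * ∑ i, a (w i) * (∑ j, (d j (b i) : ℤ) - anti b i) := by
        rw [Finset.mul_sum]
        exact Finset.sum_congr rfl fun i _ => by ring
      rw [h1, h2]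
      exact mul_le_mul_of_nonneg_left hα2 (Int.natCast_nonneg m))
    hn
  refine ⟨N, hN, d', hd', fun v g hg => ?_⟩
  obtain ⟨G, hG, hG0⟩ := hG v g hg
  refine ⟨G, ⟨hG.holo, hG.semi, fun γ v g => ?_⟩, hG0⟩
  rw [hG.eq γ v g, hLe]

end Q47.FL
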