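import Pool.Agent.Q47.FL.Defs
import Pool.Agent.Q47.TB.Main

/-!
# Log canonical pairs on flag varieties: weights
-/

set_option autoImplicit false

namespace Q47.FL

open MvPolynomial

variable {q : ℕ}

/-- The row degrees of a monomial. -/
def row (α : Fin q × Fin q →₀ ℕ) (i : Fin q) : ℕ := ∑ j, α (i, j)

/-- The column degrees of a monomial. -/
def col (α : Fin q × Fin q →₀ ℕ) (j : Fin q) : ℕ := ∑ i, α (i, j)

/-- The permutation matrix. -/
def pm (w : Equiv.Perm (Fin q)) : Matrix (Fin q) (Fin q) ℂ :=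
  Matrix.of fun i j => if i = w j then 1 else 0

theorem pm_mul (w : Equiv.Perm (Fin q)) (A : Matrix (Fin q) (Fin q) ℂ) (i j : Fin q) :
    (pm w * A) i j = A (w.symm i) j := by
  rw [Matrix.mul_apply, Finset.sum_eq_single (w.symm i)]
  · simp [pm]
  · intro k _ hk
    have : i ≠ w k := fun h => hk (by rw [h, Equiv.symm_apply_apply])
    simp [pm, this]
  · intro h
    exact absurd (Finset.mem_univ _) h

theorem pm_det (w : Equiv.Perm (Fin q)) : (pm w).det ≠ 0 := by
  have h1 : pm w.symm * pm w = 1 := by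
    ext i j
    rw [pm_mul, Equiv.symm_symm]
    simp [pm, Matrix.one_apply]
  intro h
  have h2 := congrArg Matrix.det h1
  rw [Matrix.det_mul, h, mul_zero, Matrix.det_one] at h2
  exact zero_ne_one h2

/-- The substitution for the chart at a permutation matrix. -/
noncomputable def sb (b : Fin q → ℕ) (w : Equiv.Perm (Fin q)) (x : Fin q × Fin q) :
    MvPolynomial (Low b) ℂ :=
  if w.symm x.1 = x.2 then 1
  else if h : b x.2 < b (w.symm x.1) then X ⟨(w.symm x.1, x.2), h⟩ else 0

/-- The polynomial in the coordinates of the chart. -/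
noncomputable def cp (b : Fin q → ℕ) (w : Equiv.Perm (Fin q))
    (f : MvPolynomial (Fin q × Fin q) ℂ) : MvPolynomial (Low b) ℂ :=
  ∑ α ∈ f.support, C (coeff α f) * ∏ x, sb b w x ^ α x

theorem eval_sb (b : Fin q → ℕ) (w : Equiv.Perm (Fin q)) (y : Low b → ℂ) (x : Fin q × Fin q) :
    eval y (sb b w x) = chart b (pm w) y x.1 x.2 := by
  rw [chart, pm_mul, sb]
  by_cases h1 : w.symm x.1 = x.2
  · rw [if_pos h1, map_one]
    have h2 : ¬ b x.2 < b (w.symm x.1) := by rw [h1]; exact lt_irrefl _
    simp [Matrix.add_apply, h1]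
  · rw [if_neg h1]
    by_cases h2 : b x.2 < b (w.symm x.1)
    · simp [Matrix.add_apply, h1, h2]
    · simp [Matrix.add_apply, h1, h2]

theorem eval_cp (b : Fin q → ℕ) (w : Equiv.Perm (Fin q)) (f : MvPolynomial (Fin q × Fin q) ℂ)
    (y : Low b → ℂ) : eval y (cp b w f) = ev (chart b (pm w) y) f := by
  rw [cp, ev, map_sum, eval_eq']
  refine Finset.sum_congr rfl fun α _ => ?_
  rw [map_mul, eval_C, map_prod]
  simp only [map_pow, eval_sb]

/-- The exponent of the monomial of the substitution. -/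
noncomputable def de (b : Fin q → ℕ) (w : Equiv.Perm (Fin q)) (x : Fin q × Fin q) : Low b →₀ ℕ :=
  if h : b x.2 < b (w.symm x.1) then Finsupp.single ⟨(w.symm x.1, x.2), h⟩ 1 else 0

theorem sb_pow (b : Fin q → ℕ) (w : Equiv.Perm (Fin q)) (x : Fin q × Fin q) {k : ℕ}
    (h : k ≠ 0 → w.symm x.1 = x.2 ∨ b x.2 < b (w.symm x.1)) :
    sb b w x ^ k = monomial (k • de b w x) 1 := by
  by_cases hk : k = 0
  · rw [hk, pow_zero, zero_smul]
    rfl
  rcases h hk with h1 | h1
  · have h2 : ¬ b x.2 < b (w.symm x.1) := by rw [h1]; exact lt_irrefl _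
    rw [sb, if_pos h1, de, dif_neg h2, smul_zero, one_pow]
    rfl
  · have h2 : w.symm x.1 ≠ x.2 := fun h => by rw [h] at h1; exact lt_irrefl _ h1
    rw [sb, if_neg h2, dif_pos h1, de, dif_pos h1, X_pow_eq_monomial, Finsupp.smul_single,
      smul_eq_mul, mul_one]

/-- Where the monomials of the chart polynomial come from. -/
theorem of_mem_cp {b : Fin q → ℕ} {w : Equiv.Perm (Fin q)} {f : MvPolynomial (Fin q × Fin q) ℂ}
    {β : Low b →₀ ℕ} (hβ : β ∈ (cp b w f).support) :
    ∃ α ∈ f.support, (∀ x, α x ≠ 0 → w.symm x.1 = x.2 ∨ b x.2 < b (w.symm x.1)) ∧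
      β = ∑ x, α x • de b w x := by
  classical
  rw [mem_support_iff, cp, coeff_sum] at hβ
  obtain ⟨α, hα, h⟩ := Finset.exists_ne_zero_of_sum_ne_zero hβ
  rw [coeff_C_mul] at h
  have h0 := right_ne_zero_of_mul h
  have h1 : ∀ x, α x ≠ 0 → w.symm x.1 = x.2 ∨ b x.2 < b (w.symm x.1) := by
    intro x hx
    by_contra hcon
    push Not at hcon
    have h2 : sb b w x = 0 := by
      rw [sb, if_neg hcon.1, dif_neg (not_lt.2 hcon.2)]
    apply h0
    rw [Finset.prod_eq_zero (Finset.mem_univ x) (by rw [h2, zero_pow hx]), coeff_zero]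
  refine ⟨α, hα, h1, ?_⟩
  have h2 : ∏ x, sb b w x ^ α x = monomial (∑ x, α x • de b w x) (1 : ℂ) := by
    rw [Finset.prod_congr rfl fun x _ => sb_pow b w x (h1 x)]
    have h3 := monomial_sum_one (R := ℂ) Finset.univ fun x => α x • de b w x
    exact h3.symm
  rw [h2, coeff_monomial] at h0
  by_contra hne
  exact h0 (if_neg fun h => hne h.symm)

/-- The sum over the lower triangular positions. -/
theorem sum_low (b : Fin q → ℕ) (A : Fin q → ℤ) :
    ∑ x : Low b, (A x.1.1 - A x.1.2) = -∑ j, A j * anti b j := by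
  classical
  have h1 : ∑ x : Low b, (A x.1.1 - A x.1.2)
      = ∑ x : Fin q × Fin q, if b x.2 < b x.1 then A x.1 - A x.2 else 0 := by
    rw [← Finset.sum_filter]
    exact (Finset.sum_subtype _ (fun x => by simp) fun x : Fin q × Fin q => A x.1 - A x.2).symm
  rw [h1, Fintype.sum_prod_type]
  have h2 : ∀ i j : Fin q, (if b j < b i then A i - A j else 0)
      = (if b j < b i then A i else 0) - if b j < b i then A j else 0 := by
    intro i j
    split_ifs <;> ring
  simp only [h2, Finset.sum_sub_distrib]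
  have h3 : ∑ i, ∑ j, (if b j < b i then A i else 0)
      = ∑ i, A i * ((Finset.univ.filter fun j => b j < b i).card : ℤ) := by
    refine Finset.sum_congr rfl fun i _ => ?_
    rw [← Finset.sum_filter, Finset.sum_const, nsmul_eq_mul, mul_comm]
  have h4 : ∑ i, ∑ j, (if b j < b i then A j else 0)
      = ∑ j, A j * ((Finset.univ.filter fun i => b j < b i).card : ℤ) := by
    rw [Finset.sum_comm]
    refine Finset.sum_congr rfl fun j _ => ?_
    rw [← Finset.sum_filter, Finset.sum_const, nsmul_eq_mul, mul_comm]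
  rw [h3, h4, ← Finset.sum_sub_distrib, ← Finset.sum_neg_distrib]
  refine Finset.sum_congr rfl fun j _ => ?_
  rw [anti]
  ring

/-- The column degrees of semi-invariant polynomials. -/
theorem col_of_semi {b : Fin q → ℕ} {d : ℕ → ℕ} {f : MvPolynomial (Fin q × Fin q) ℂ}
    (hf : IsSemiInvariant b d f) {α : Fin q × Fin q →₀ ℕ} (hα : α ∈ f.support) (j : Fin q) :
    col α j = d (b j) := by
  classical
  have h1 := TB.coeff_of_eval (t := fun x : Fin q × Fin q => if x.2 = j then (2 : ℂ) else 1)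
    (p := f) (q := f) (a := 1) (b := 2 ^ d (b j)) (fun x => by
      have h2 := hf.scale (Matrix.of fun i k => x (i, k)) j 2
      rw [mul_one]
      have h3 : ev ((Matrix.of fun i k => x (i, k)).updateCol j
          fun i => 2 * (Matrix.of fun i k => x (i, k)) i j) f
          = eval (fun y : Fin q × Fin q => (if y.2 = j then (2 : ℂ) else 1) * x y) f := by
        rw [ev]
        congr 1
        refine congrArg eval ?_
        funext y
        rw [Matrix.updateCol_apply]
        by_cases h : y.2 = j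
        · rw [if_pos h, if_pos h]
          change 2 * x (y.1, j) = 2 * x y
          rw [← h]
        · rw [if_neg h, if_neg h, one_mul]
          rfl
      rw [← h3, h2]
      rfl) α
  rw [mul_one, mul_comm] at h1
  have h2 := mul_right_cancel₀ (mem_support_iff.1 hα) h1
  have h3 : ∏ x : Fin q × Fin q, (if x.2 = j then (2 : ℂ) else 1) ^ α x = 2 ^ col α j := by
    rw [Fintype.prod_prod_type, col, ← Finset.prod_pow_eq_pow_sum]
    refine Finset.prod_congr rfl fun i _ => ?_
    rw [Finset.prod_eq_single j]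
    · simp
    · intro k _ hk
      simp [hk]
    · intro h
      exact absurd (Finset.mem_univ _) h
  rw [h3] at h2
  have h4 : (2 : ℕ) ^ col α j = 2 ^ d (b j) := by exact_mod_cast h2
  exact Nat.pow_right_injective le_rfl h4

/-- A log canonical pair satisfies the inequalities for the one-parameter groups. -/
theorem weights {b : Fin q → ℕ} {m : ℕ} {d : ℕ → ℕ}
    {f : MvPolynomial (Fin q × Fin q) ℂ} (hcol : ∀ α ∈ f.support, ∀ j, col α j = d (b j))
    (w : Equiv.Perm (Fin q)) (a : Fin q → ℤ) (ha : ∀ j k, b j < b k → a (w j) < a (w k))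
    (h : ∃ β ∈ (cp b w f).support, ∑ x : Low b, (a (w x.1.1) - a (w x.1.2)).toNat * β x
      ≤ m * ∑ x : Low b, (a (w x.1.1) - a (w x.1.2)).toNat) :
    ∃ α ∈ f.support, ∑ i, a i * row α i ≤ ∑ j, a (w j) * (d (b j) - m * anti b j) := by
  classical
  obtain ⟨β, hβ, hle⟩ := h
  obtain ⟨α, hα, hgood, rfl⟩ := of_mem_cp hβ
  refine ⟨α, hα, ?_⟩
  have hpos : ∀ x : Low b, 0 ≤ a (w x.1.1) - a (w x.1.2) := fun x => by
    have := ha x.1.2 x.1.1 x.2
    omega
  have h1 : (∑ x : Low b, (a (w x.1.1) - a (w x.1.2)) * ((∑ y, α y • de b w y) x : ℕ) : ℤ)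
      ≤ m * ∑ x : Low b, (a (w x.1.1) - a (w x.1.2)) := by
    have h2 : ((∑ x : Low b, (a (w x.1.1) - a (w x.1.2)).toNat * (∑ y, α y • de b w y) x : ℕ) : ℤ)
        ≤ ((m * ∑ x : Low b, (a (w x.1.1) - a (w x.1.2)).toNat : ℕ) : ℤ) := by exact_mod_cast hle
    rw [Nat.cast_sum, Nat.cast_mul, Nat.cast_sum] at h2
    simp only [Nat.cast_mul, Int.toNat_of_nonneg (hpos _)] at h2
    exact h2
  have h2 : (∑ x : Low b, (a (w x.1.1) - a (w x.1.2)) * ((∑ y, α y • de b w y) x : ℕ) : ℤ)
      = ∑ y : Fin q × Fin q, (a y.1 - a (w y.2)) * α y := by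
    simp only [Finsupp.finsetSum_apply, Finsupp.smul_apply, smul_eq_mul, Nat.cast_sum,
      Finset.mul_sum]
    rw [Finset.sum_comm]
    refine Finset.sum_congr rfl fun y _ => ?_
    by_cases hy : α y = 0
    · simp [hy]
    rcases hgood y hy with h3 | h3
    · have h4 : ¬ b y.2 < b (w.symm y.1) := by rw [h3]; exact lt_irrefl _
      have h5 : a y.1 - a (w y.2) = 0 := by rw [← h3, Equiv.apply_symm_apply, sub_self]
      rw [h5, zero_mul]
      refine Finset.sum_eq_zero fun x _ => ?_
      rw [de, dif_neg h4]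
      simp
    · rw [Finset.sum_eq_single ⟨(w.symm y.1, y.2), h3⟩]
      · rw [de, dif_pos h3, Finsupp.single_eq_same]
        simp
      · intro x _ hx
        rw [de, dif_pos h3, Finsupp.single_eq_of_ne hx]
        simp
      · intro h
        exact absurd (Finset.mem_univ _) h
  have h3 : ∑ y : Fin q × Fin q, (a y.1 - a (w y.2)) * (α y : ℤ)
      = ∑ i, a i * row α i - ∑ j, a (w j) * d (b j) := by
    simp only [sub_mul, Finset.sum_sub_distrib]
    congr 1
    · rw [Fintype.sum_prod_type]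
      refine Finset.sum_congr rfl fun i _ => ?_
      rw [row, Nat.cast_sum, Finset.mul_sum]
    · rw [Fintype.sum_prod_type_right]
      refine Finset.sum_congr rfl fun j _ => ?_
      rw [← hcol α hα j, col, Nat.cast_sum, Finset.mul_sum]
  have h4 := sum_low b fun j => a (w j)
  rw [h2, h3, h4] at h1
  have h5 : ∑ j, a (w j) * ((d (b j) : ℤ) - m * anti b j)
      = ∑ j, a (w j) * d (b j) - m * ∑ j, a (w j) * anti b j := by
    rw [Finset.mul_sum, ← Finset.sum_sub_distrib]
    exact Finset.sum_congr rfl fun j _ => by ring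
  rw [h5]
  linarith

/-- The weight inequality for log canonical pairs. -/
theorem weights_of_lc {b : Fin q → ℕ} {m : ℕ} (hm : 1 ≤ m)
    {f : MvPolynomial (Fin q × Fin q) ℂ} (hlc : IsLogCanonical b m f)
    (w : Equiv.Perm (Fin q)) (a : Fin q → ℤ) (ha : ∀ j k, b j < b k → a (w j) < a (w k)) :
    ∃ β ∈ (cp b w f).support, ∑ x : Low b, (a (w x.1.1) - a (w x.1.2)).toNat * β x
      ≤ m * ∑ x : Low b, (a (w x.1.1) - a (w x.1.2)).toNat := by
  classical
  refine TB.weights_of_lc (S := {Set.univ}) hm (fun x hx c hc => ?_) _ ?_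
  · have hx0 : x = 0 := by
      funext i
      have : i ∈ {i | x i = 0} := by
        rw [Set.mem_singleton_iff.1 hx]
        trivial
      exact this
    obtain ⟨r, hr, hfin⟩ := hlc (pm w) (pm_det w) c hc
    refine ⟨r, hr, ?_⟩
    rw [hx0]
    simp only [eval_cp]
    exact hfin
  · rw [Set.mem_singleton_iff, Set.eq_univ_iff_forall]
    intro x
    have := ha x.1.2 x.1.1 x.2
    change (a (w x.1.1) - a (w x.1.2)).toNat ≠ 0
    omega

end Q47.FL
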